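import Pool.Agent.Helper67.BT.Stmts

/-! Module LWB of `bt_mods`: the first order condition for the Lewis position. -/

open Finset MeasureTheory

namespace Pool.Agent.Helper67.BT

theorem lwb_norm_der {k : ℕ} {p : ℝ} (hp : 2 ≤ p) (b w : E k) (a : ℝ) :
    HasDerivAt (fun t : ℝ => ‖b + (t * a) • w‖ ^ p) (p * (‖b‖ ^ (p - 2) * a * inner ℝ b w)) 0 := by
  have h1 : ∀ t : ℝ, ‖b + (t * a) • w‖ ^ p =
      (‖b‖ ^ 2 + 2 * (a * inner ℝ b w) * t + a ^ 2 * ‖w‖ ^ 2 * t ^ 2) ^ (p / 2) := by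
    intro t
    have e1 : ‖b + (t * a) • w‖ ^ 2 =
        ‖b‖ ^ 2 + 2 * (a * inner ℝ b w) * t + a ^ 2 * ‖w‖ ^ 2 * t ^ 2 := by
      rw [norm_add_sq_real, inner_smul_right, norm_smul, mul_pow, Real.norm_eq_abs, sq_abs]
      ring
    rw [← e1, ← Real.rpow_natCast, ← Real.rpow_mul (norm_nonneg _)]
    congr 1
    push_cast
    ring
  have h2 : HasDerivAt (fun t : ℝ => ‖b‖ ^ 2 + 2 * (a * inner ℝ b w) * t +
      a ^ 2 * ‖w‖ ^ 2 * t ^ 2) (2 * (a * inner ℝ b w)) 0 := by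
    have e := (((hasDerivAt_id (0 : ℝ)).const_mul (2 * (a * inner ℝ b w))).const_add
      (‖b‖ ^ 2)).add (((hasDerivAt_id (0 : ℝ)).pow 2).const_mul (a ^ 2 * ‖w‖ ^ 2))
    refine e.congr_deriv ?_
    simp
  have h3 := h2.rpow_const (p := p / 2) (Or.inr (by linarith))
  have h4 : (fun t : ℝ => ‖b + (t * a) • w‖ ^ p) =
      fun t : ℝ => (‖b‖ ^ 2 + 2 * (a * inner ℝ b w) * t + a ^ 2 * ‖w‖ ^ 2 * t ^ 2) ^ (p / 2) :=
    funext h1
  rw [h4]
  refine h3.congr_deriv ?_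
  have h5 : (‖b‖ ^ 2 + 2 * (a * inner ℝ b w) * 0 + a ^ 2 * ‖w‖ ^ 2 * 0 ^ 2) ^ (p / 2 - 1) =
      ‖b‖ ^ (p - 2) := by
    have e : ‖b‖ ^ 2 + 2 * (a * inner ℝ b w) * 0 + a ^ 2 * ‖w‖ ^ 2 * 0 ^ 2 = ‖b‖ ^ 2 := by ring
    rw [e, ← Real.rpow_natCast, ← Real.rpow_mul (norm_nonneg _)]
    congr 1
    push_cast
    ring
  rw [h5]
  ring

theorem st_LWB : ST_LWB := by
  intro n k p a T hk hp hdet hsum hopt u w
  set f : E k →ₗ[ℝ] ℝ := (innerSL ℝ u).toLinearMap with hf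
  have hfa : ∀ y, f y = inner ℝ u y := fun y => rfl
  set c : ℝ := inner ℝ u w with hc
  set Θ : ℝ → ℝ := fun t => ∑ i, ‖T (a i) + (t * inner ℝ u (T (a i))) • w‖ ^ p with hΘ
  have hkR : (0 : ℝ) < k := by exact_mod_cast hk
  have hN : 0 < |LinearMap.det T| ^ p := Real.rpow_pos_of_pos (abs_pos.2 hdet) _
  have hineq : ∀ t : ℝ, |1 + t * c| ^ p * (k : ℝ) ^ k ≤ Θ t ^ k := by
    intro t
    have h := hopt ((LinearMap.transvection (t • f) w) ∘ₗ T)
    rw [LinearMap.det_comp, LinearMap.transvection.det, abs_mul, Real.mul_rpow (abs_nonneg _)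
      (abs_nonneg _)] at h
    have e1 : (1 : ℝ) + (t • f) w = 1 + t * c := by
      rw [LinearMap.smul_apply, hfa, smul_eq_mul]
    have e2 : ∀ i, ‖((LinearMap.transvection (t • f) w) ∘ₗ T) (a i)‖ ^ p =
        ‖T (a i) + (t * inner ℝ u (T (a i))) • w‖ ^ p := by
      intro i
      rw [LinearMap.comp_apply, LinearMap.transvection.apply, LinearMap.smul_apply, hfa,
        smul_eq_mul]
    rw [e1, Finset.sum_congr rfl fun i _ => e2 i] at h
    have h' : |LinearMap.det T| ^ p * (|1 + t * c| ^ p * (k : ℝ) ^ k) ≤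
        |LinearMap.det T| ^ p * Θ t ^ k := by
      refine le_trans (le_of_eq ?_) h
      ring
    exact le_of_mul_le_mul_left h' hN
  have hΘ0 : Θ 0 = k := by
    simp only [hΘ, zero_mul, zero_smul, add_zero]
    exact hsum
  set D : ℝ := ∑ i, p * (‖T (a i)‖ ^ (p - 2) * inner ℝ u (T (a i)) * inner ℝ (T (a i)) w) with hD
  have hΘd : HasDerivAt Θ D 0 := HasDerivAt.fun_sum fun i _ => lwb_norm_der hp _ _ _
  have hdet' : HasDerivAt (fun t : ℝ => |1 + t * c| ^ p) (p * c) 0 := by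
    have e1 : HasDerivAt (fun t : ℝ => 1 + t * c) (1 * c) 0 :=
      ((hasDerivAt_id (0 : ℝ)).mul_const c).const_add 1
    have e2 : HasDerivAt (fun z : ℝ => |z| ^ p) (p * ps p (1 + 0 * c)) (1 + 0 * c) :=
      abs_der (by linarith) _
    have e3 := e2.comp (0 : ℝ) e1
    refine HasDerivAt.congr_deriv e3 ?_
    unfold ps
    simp
  have hG : HasDerivAt (fun t : ℝ => Θ t ^ k - |1 + t * c| ^ p * (k : ℝ) ^ k)
      ((k : ℝ) * Θ 0 ^ (k - 1) * D - p * c * (k : ℝ) ^ k) 0 :=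
    (hΘd.pow k).sub (hdet'.mul_const _)
  have hmin : IsLocalMin (fun t : ℝ => Θ t ^ k - |1 + t * c| ^ p * (k : ℝ) ^ k) 0 := by
    refine Filter.Eventually.of_forall fun t => ?_
    have e0 : Θ 0 ^ k - |1 + 0 * c| ^ p * (k : ℝ) ^ k = 0 := by
      rw [hΘ0]
      simp
    simp only [e0]
    linarith [hineq t]
  have hz := hmin.hasDerivAt_eq_zero hG
  rw [hΘ0] at hz
  have hkk : (k : ℝ) * (k : ℝ) ^ (k - 1) = (k : ℝ) ^ k := by
    rw [← pow_succ', Nat.sub_add_cancel hk]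
  rw [hkk] at hz
  have hz2 : (k : ℝ) ^ k * (D - p * c) = 0 := by linarith
  have hDc : D = p * c := by
    rcases mul_eq_zero.1 hz2 with h | h
    · exact absurd h (pow_pos hkR k).ne'
    · linarith
  have hp0 : p ≠ 0 := by linarith
  have hfin : p * ∑ i, ‖T (a i)‖ ^ (p - 2) * inner ℝ (T (a i)) u * inner ℝ (T (a i)) w = p * c := by
    rw [← hDc, hD, Finset.mul_sum]
    refine Finset.sum_congr rfl fun i _ => ?_
    rw [real_inner_comm u (T (a i))]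
  exact mul_left_cancel₀ hp0 hfin

end Pool.Agent.Helper67.BT
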