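import Pool.Agent.Helper67.BT.Stmts

/-! Module VRF of `bt_mods`: the potential and its derivative under reflection. -/

open Finset MeasureTheory

namespace Pool.Agent.Helper67.BT

theorem vrf_split {k : ℕ} (S : Finset (Fin k)) (e x : E k) :
    inner ℝ e x = inner ℝ (pr S e) x + inner ℝ (pr Sᶜ e) x := by
  rw [← inner_add_left]
  congr 1
  ext l
  by_cases h : l ∈ S <;> simp [pr, h]

theorem vrf_split' {k : ℕ} (S : Finset (Fin k)) (e x : E k) :
    inner ℝ e (fl S x) = inner ℝ (pr S e) x - inner ℝ (pr Sᶜ e) x := by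
  simp only [PiLp.inner_apply]
  rw [← Finset.sum_sub_distrib]
  refine Finset.sum_congr rfl fun l _ => ?_
  by_cases h : l ∈ S <;> simp [pr, fl, h]

theorem vrf_pr {k : ℕ} (S : Finset (Fin k)) (e v : E k) :
    inner ℝ e (pr S v) = inner ℝ (pr S e) v := by
  simp only [PiLp.inner_apply]
  refine Finset.sum_congr rfl fun l _ => ?_
  by_cases h : l ∈ S <;> simp [pr, h]

theorem vrf_norm {k : ℕ} (S : Finset (Fin k)) (e : E k) :
    ‖pr S e‖ ^ 2 + ‖pr Sᶜ e‖ ^ 2 = ‖e‖ ^ 2 := by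
  rw [EuclideanSpace.real_norm_sq_eq, EuclideanSpace.real_norm_sq_eq,
    EuclideanSpace.real_norm_sq_eq, ← Finset.sum_add_distrib]
  refine Finset.sum_congr rfl fun l _ => ?_
  by_cases h : l ∈ S <;> simp [pr, h]

theorem vrf_cs {n k : ℕ} (c : Cfg n k) (S : Finset (Fin k)) :
    ∑ i, c.s i * (‖pr S (c.e i)‖ * ‖pr Sᶜ (c.e i)‖) ≤ Real.sqrt k * Real.sqrt (kap c S) := by
  rw [← Real.sqrt_mul (Nat.cast_nonneg k)]
  refine Real.le_sqrt_of_sq_le ?_
  rw [← sum_s c]
  unfold kap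
  refine Finset.sum_sq_le_sum_mul_sum_of_sq_le_mul univ (fun i _ => c.s0 i)
    (fun i _ => mul_nonneg (mul_nonneg (c.s0 i) (sq_nonneg _)) (sq_nonneg _))
    fun i _ => le_of_eq ?_
  ring

theorem st_VRF (h : ST_PT) : ST_VRF := by
  intro k
  have hk0 : 0 ≤ Real.sqrt k := Real.sqrt_nonneg _
  refine ⟨48 * Real.sqrt k + 1, by linarith, ?_⟩
  intro n c p S v x hp hp3
  have hκ : 0 ≤ Real.sqrt (kap c S) := Real.sqrt_nonneg _
  set r := ‖x‖ with hr
  have hr0 : 0 ≤ r := norm_nonneg x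
  have hcs := vrf_cs c S
  have hA0 : ∀ i, 0 ≤ ‖pr S (c.e i)‖ := fun i => norm_nonneg _
  have hB0 : ∀ i, 0 ≤ ‖pr Sᶜ (c.e i)‖ := fun i => norm_nonneg _
  have hAB : ∀ i, ‖pr S (c.e i)‖ ^ 2 + ‖pr Sᶜ (c.e i)‖ ^ 2 = 1 := by
    intro i
    rw [vrf_norm, c.e1 i, one_pow]
  have hA1 : ∀ i, ‖pr S (c.e i)‖ ≤ 1 := fun i => by nlinarith [hAB i, hA0 i, hB0 i]
  have hB1 : ∀ i, ‖pr Sᶜ (c.e i)‖ ≤ 1 := fun i => by nlinarith [hAB i, hA0 i, hB0 i]
  have ha : ∀ i, |inner ℝ (pr S (c.e i)) x| ≤ ‖pr S (c.e i)‖ * r := fun i =>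
    abs_real_inner_le_norm _ _
  have hb : ∀ i, |inner ℝ (pr Sᶜ (c.e i)) x| ≤ ‖pr Sᶜ (c.e i)‖ * r := fun i =>
    abs_real_inner_le_norm _ _
  have hsum : ∀ i, 1 + |inner ℝ (pr S (c.e i)) x| + |inner ℝ (pr Sᶜ (c.e i)) x| ≤ 2 * (1 + r) := by
    intro i
    have e1 := mul_le_mul_of_nonneg_right (hA1 i) hr0
    have e2 := mul_le_mul_of_nonneg_right (hB1 i) hr0
    linarith [ha i, hb i]
  have hz : ∀ i, c.z i x = inner ℝ (pr S (c.e i)) x + inner ℝ (pr Sᶜ (c.e i)) x := fun i =>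
    vrf_split S (c.e i) x
  have hz' : ∀ i, c.z i (fl S x) = inner ℝ (pr S (c.e i)) x - inner ℝ (pr Sᶜ (c.e i)) x :=
    fun i => vrf_split' S (c.e i) x
  constructor
  · have key : ∀ i, abs (|c.z i (fl S x)| ^ p - |c.z i x| ^ p) ≤
        48 * (‖pr S (c.e i)‖ * ‖pr Sᶜ (c.e i)‖) * (1 + r) ^ 3 := by
      intro i
      rw [hz i, hz' i]
      set a := inner ℝ (pr S (c.e i)) x with hadef
      set b := inner ℝ (pr Sᶜ (c.e i)) x with hbdef
      set A := ‖pr S (c.e i)‖ with hA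
      set B := ‖pr Sᶜ (c.e i)‖ with hB
      have p1 := (h p 0 a b hp hp3).2.2.2.2.1
      have p2 := (h p 0 b a hp hp3).2.2.2.2.1
      rw [add_comm b a, abs_sub_comm b a] at p2
      rw [abs_sub_comm]
      have s1 : (1 + |a| + |b|) ^ 2 ≤ (2 * (1 + r)) ^ 2 :=
        pow_le_pow_left₀ (by positivity) (hsum i) 2
      have s2 : (1 + |b| + |a|) ^ 2 ≤ (2 * (1 + r)) ^ 2 := by
        refine pow_le_pow_left₀ (by positivity) ?_ 2
        have := hsum i
        linarith
      have hr1 : r ≤ 1 + r := by linarith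
      rcases le_total A B with hle | hle
      · have hB2 : 1 / 2 ≤ B := by nlinarith [hAB i, hA0 i, hB0 i]
        have q1 : |a| ≤ 2 * (A * B) * (1 + r) := by
          refine (ha i).trans ?_
          have t1 : A ≤ 2 * (A * B) := by nlinarith [hA0 i]
          exact mul_le_mul t1 hr1 hr0 (by have := hA0 i; positivity)
        refine p2.trans ?_
        calc 6 * |a| * (1 + |b| + |a|) ^ 2 ≤ 6 * (2 * (A * B) * (1 + r)) * (2 * (1 + r)) ^ 2 := by
              gcongr
          _ = 48 * (A * B) * (1 + r) ^ 3 := by ring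
      · have hA2 : 1 / 2 ≤ A := by nlinarith [hAB i, hA0 i, hB0 i]
        have q1 : |b| ≤ 2 * (A * B) * (1 + r) := by
          refine (hb i).trans ?_
          have t1 : B ≤ 2 * (A * B) := by nlinarith [hB0 i]
          exact mul_le_mul t1 hr1 hr0 (by have := hB0 i; positivity)
        refine p1.trans ?_
        calc 6 * |b| * (1 + |a| + |b|) ^ 2 ≤ 6 * (2 * (A * B) * (1 + r)) * (2 * (1 + r)) ^ 2 := by
              gcongr
          _ = 48 * (A * B) * (1 + r) ^ 3 := by ring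
    have e1 : V c p (fl S x) - V c p x = ∑ i, c.s i * (|c.z i (fl S x)| ^ p - |c.z i x| ^ p) := by
      unfold V
      rw [← Finset.sum_sub_distrib]
      exact Finset.sum_congr rfl fun i _ => by ring
    rw [e1]
    refine (Finset.abs_sum_le_sum_abs _ _).trans ?_
    have e2 : ∀ i ∈ univ, |c.s i * (|c.z i (fl S x)| ^ p - |c.z i x| ^ p)| ≤
        48 * (1 + r) ^ 3 * (c.s i * (‖pr S (c.e i)‖ * ‖pr Sᶜ (c.e i)‖)) := by
      intro i _
      rw [abs_mul, abs_of_nonneg (c.s0 i)]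
      refine (mul_le_mul_of_nonneg_left (key i) (c.s0 i)).trans (le_of_eq ?_)
      ring
    refine (Finset.sum_le_sum e2).trans ?_
    rw [← Finset.mul_sum]
    refine (mul_le_mul_of_nonneg_left hcs (by positivity)).trans ?_
    have t : 0 ≤ Real.sqrt (kap c S) * (1 + r) ^ 3 := by positivity
    nlinarith
  · intro hv hv1
    have key : ∀ i, |(ps p (c.z i (fl S x)) - ps p (c.z i x)) * inner ℝ (c.e i) v| ≤
        8 * (‖pr S (c.e i)‖ * ‖pr Sᶜ (c.e i)‖) * (1 + r) ^ 2 := by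
      intro i
      have hin : |inner ℝ (c.e i) v| ≤ ‖pr S (c.e i)‖ := by
        rw [← hv, vrf_pr]
        refine (abs_real_inner_le_norm _ _).trans ?_
        exact mul_le_of_le_one_right (hA0 i) hv1
      rw [hz i, hz' i, abs_mul]
      set a := inner ℝ (pr S (c.e i)) x with hadef
      set b := inner ℝ (pr Sᶜ (c.e i)) x with hbdef
      set A := ‖pr S (c.e i)‖ with hA
      set B := ‖pr Sᶜ (c.e i)‖ with hB
      have p1 := (h p 0 a b hp hp3).2.2.2.1
      rw [abs_sub_comm (ps p (a - b))]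
      have hr1 : r ≤ 1 + r := by linarith
      have q1 : |b| ≤ B * (1 + r) := (hb i).trans (mul_le_mul_of_nonneg_left hr1 (hB0 i))
      have q2 : |ps p (a + b) - ps p (a - b)| ≤ 8 * B * (1 + r) ^ 2 := by
        refine p1.trans ?_
        have hs := hsum i
        calc 4 * |b| * (1 + |a| + |b|) ≤ 4 * (B * (1 + r)) * (2 * (1 + r)) := by
              gcongr
          _ = 8 * B * (1 + r) ^ 2 := by ring
      calc |ps p (a + b) - ps p (a - b)| * |inner ℝ (c.e i) v| ≤ 8 * B * (1 + r) ^ 2 * A :=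
            mul_le_mul q2 hin (abs_nonneg _) (by have := hB0 i; positivity)
        _ = 8 * (A * B) * (1 + r) ^ 2 := by ring
    have e1 : dV c p v (fl S x) - dV c p v x =
        p * ∑ i, c.s i * ((ps p (c.z i (fl S x)) - ps p (c.z i x)) * inner ℝ (c.e i) v) := by
      unfold dV
      rw [← mul_sub, ← Finset.sum_sub_distrib]
      congr 1
      exact Finset.sum_congr rfl fun i _ => by ring
    rw [e1, abs_mul, abs_of_pos (by linarith : 0 < p)]
    have e2 : |∑ i, c.s i * ((ps p (c.z i (fl S x)) - ps p (c.z i x)) * inner ℝ (c.e i) v)| ≤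
        8 * (1 + r) ^ 2 * (Real.sqrt k * Real.sqrt (kap c S)) := by
      refine (Finset.abs_sum_le_sum_abs _ _).trans ?_
      have e3 : ∀ i ∈ univ, |c.s i * ((ps p (c.z i (fl S x)) - ps p (c.z i x)) *
          inner ℝ (c.e i) v)| ≤ 8 * (1 + r) ^ 2 * (c.s i * (‖pr S (c.e i)‖ * ‖pr Sᶜ (c.e i)‖)) := by
        intro i _
        rw [abs_mul (c.s i), abs_of_nonneg (c.s0 i)]
        refine (mul_le_mul_of_nonneg_left (key i) (c.s0 i)).trans (le_of_eq ?_)
        ring
      refine (Finset.sum_le_sum e3).trans ?_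
      rw [← Finset.mul_sum]
      exact mul_le_mul_of_nonneg_left hcs (by positivity)
    refine (mul_le_mul hp3 e2 (abs_nonneg _) (by norm_num)).trans ?_
    have t1 : 0 ≤ Real.sqrt k * Real.sqrt (kap c S) * (1 + r) ^ 2 := by positivity
    have t2 : 0 ≤ Real.sqrt (kap c S) * (1 + r) ^ 2 := by positivity
    nlinarith

end Pool.Agent.Helper67.BT
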